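import Pool.Agent.N356.SP.Defs
import Pool.Agent.N765.LS.Func

/-! LS12b of the project LS (helper356), by helper608: the functional of a union. The boundedness of
the sets `Sset k A` is in LS12a (helper765). -/

set_option autoImplicit false

namespace Pool.Agent.N608.LS

open Finset Pool.Agent.H384R3.SPk Pool.Agent.N356.SP

theorem cosp_smul' (t : ℝ) (f : ℤ →₀ ℝ) (x : ℝ) : cosp (t • f) x = t * cosp f x := by
  unfold cosp
  rw [Finsupp.sum_smul_index (fun i => by simp), Finsupp.mul_sum]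
  apply Finsupp.sum_congr
  intro n _
  ring

theorem Mc_smul (k : ℕ) (t : ℝ) (f : ℤ →₀ ℝ) : Mc k (t • f) = t ^ (2 * k) * Mc k f := by
  unfold Mc
  rw [← intervalIntegral.integral_const_mul]
  congr 1
  funext x
  rw [cosp_smul', mul_pow]

theorem zero_mem_Sset {k : ℕ} (hk : 1 ≤ k) (A : Finset ℤ) : (0 : ℝ) ∈ Sset k A := by
  refine ⟨0, fun n => le_refl _, by simp, ?_, by simp⟩
  have h : Mc k (0 : ℤ →₀ ℝ) = 0 := by
    have h1 := Mc_smul k 0 (0 : ℤ →₀ ℝ)
    rw [zero_pow (by omega), zero_mul, smul_zero] at h1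
    exact h1
  rw [h]
  positivity

theorem comb_pair {k : ℕ} {A A₀ A' : Finset ℤ} (hbdd : BddAbove (Sset k A))
    (h0 : A₀ ⊆ A) (h1 : A' ⊆ A) {t B : ℝ} (ht : 0 ≤ t) (hB : 0 < B)
    (H : ∀ g f : ℤ →₀ ℝ, (∀ n, 0 ≤ g n) → (∀ n, 0 ≤ f n) → g.support ⊆ A' → f.support ⊆ A₀ →
      Mc k g ≤ ((2 * k).choose k : ℝ) → Mc k f ≤ ((2 * k).choose k : ℝ) →
      Mc k (g + t • f) ≤ ((2 * k).choose k : ℝ) * B ^ (2 * k))
    {s' s₀ : ℝ} (hs' : s' ∈ Sset k A') (hs₀ : s₀ ∈ Sset k A₀) : s' + t * s₀ ≤ S k A * B := by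
  obtain ⟨g, hg0, hgs, hgM, rfl⟩ := hs'
  obtain ⟨f, hf0, hfs, hfM, rfl⟩ := hs₀
  have hH := H g f hg0 hf0 hgs hfs hgM hfM
  have hmem : (1 / B) * (∑ n ∈ A', g n + t * ∑ n ∈ A₀, f n) ∈ Sset k A := by
    refine ⟨(1 / B) • (g + t • f), fun n => ?_, fun n hn => ?_, ?_, ?_⟩
    · have := hg0 n
      have := hf0 n
      simp only [Finsupp.smul_apply, Finsupp.add_apply, smul_eq_mul]
      positivity
    · by_contra hA
      have hg : g n = 0 := by
        by_contra h
        exact hA (h1 (hgs (Finsupp.mem_support_iff.2 h)))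
      have hf : f n = 0 := by
        by_contra h
        exact hA (h0 (hfs (Finsupp.mem_support_iff.2 h)))
      apply Finsupp.mem_support_iff.1 hn
      simp only [Finsupp.smul_apply, Finsupp.add_apply, smul_eq_mul, hg, hf]
      ring
    · rw [Mc_smul]
      have hBk : 0 < B ^ (2 * k) := by positivity
      calc (1 / B) ^ (2 * k) * Mc k (g + t • f)
          ≤ (1 / B) ^ (2 * k) * (((2 * k).choose k : ℝ) * B ^ (2 * k)) :=
            mul_le_mul_of_nonneg_left hH (by positivity)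
        _ = ((2 * k).choose k : ℝ) := by
            rw [one_div, inv_pow]
            field_simp
    · have e1 : ∑ n ∈ A', g n = ∑ n ∈ A, g n := by
        apply sum_subset h1
        intro n _ hn
        by_contra h
        exact hn (hgs (Finsupp.mem_support_iff.2 h))
      have e2 : ∑ n ∈ A₀, f n = ∑ n ∈ A, f n := by
        apply sum_subset h0
        intro n _ hn
        by_contra h
        exact hn (hfs (Finsupp.mem_support_iff.2 h))
      rw [e1, e2]
      simp only [Finsupp.smul_apply, Finsupp.add_apply, smul_eq_mul]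
      rw [← mul_sum, sum_add_distrib, ← mul_sum]
  have h2 := le_csSup hbdd hmem
  have h3 : (1 / B) * (∑ n ∈ A', g n + t * ∑ n ∈ A₀, f n) ≤ S k A := h2
  rw [one_div, inv_mul_le_iff₀ hB] at h3
  linarith

theorem S_comb {k : ℕ} (hk : 1 ≤ k) {A A₀ A' : Finset ℤ} (_hpos : ∀ a ∈ A, 0 < a)
    (h0 : A₀ ⊆ A) (h1 : A' ⊆ A) {t B : ℝ} (ht : 0 ≤ t) (hB : 0 < B)
    (H : ∀ g f : ℤ →₀ ℝ, (∀ n, 0 ≤ g n) → (∀ n, 0 ≤ f n) → g.support ⊆ A' → f.support ⊆ A₀ →
      Mc k g ≤ ((2 * k).choose k : ℝ) → Mc k f ≤ ((2 * k).choose k : ℝ) →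
      Mc k (g + t • f) ≤ ((2 * k).choose k : ℝ) * B ^ (2 * k)) :
    S k A' + t * S k A₀ ≤ S k A * B := by
  have hb := Pool.Agent.N765.LS.bddAbove hk A
  have key : ∀ s' ∈ Sset k A', ∀ s₀ ∈ Sset k A₀, s' + t * s₀ ≤ S k A * B :=
    fun s' hs' s₀ hs₀ => comb_pair hb h0 h1 ht hB H hs' hs₀
  have h2 : ∀ s' ∈ Sset k A', s' + t * S k A₀ ≤ S k A * B := by
    intro s' hs'
    rcases ht.eq_or_lt with h | h
    · have := key s' hs' 0 (zero_mem_Sset hk A₀)
      rw [← h] at this ⊢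
      linarith
    · have h3 : S k A₀ ≤ (S k A * B - s') / t := by
        apply csSup_le ⟨0, zero_mem_Sset hk A₀⟩
        intro s₀ hs₀
        rw [le_div_iff₀ h]
        have := key s' hs' s₀ hs₀
        linarith
      rw [le_div_iff₀ h] at h3
      linarith
  have h4 : S k A' ≤ S k A * B - t * S k A₀ := by
    apply csSup_le ⟨0, zero_mem_Sset hk A'⟩
    intro s' hs'
    have := h2 s' hs'
    linarith
  linarith

end Pool.Agent.N608.LS
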