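import Pool.Agent.N356.SP.Defs

/-! LS14 of the project LS (helper356), by helper608: pigeonhole to one class. -/

set_option autoImplicit false

namespace Pool.Agent.N608.LS

open Finset Pool.Agent.H384R3.SPk Pool.Agent.N356.SP

theorem exists_fiber {Γ : Type} [Fintype Γ] [DecidableEq Γ] [Nonempty Γ] (f : ℤ → Γ)
    (A : Finset ℤ) : ∃ y : Γ, A.card ≤ Fintype.card Γ * (A.filter fun x => f x = y).card := by
  obtain ⟨y, -, hy⟩ := exists_max_image (univ : Finset Γ)
    (fun y => (A.filter fun x => f x = y).card) univ_nonempty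
  refine ⟨y, ?_⟩
  by_contra h
  rw [not_le] at h
  obtain ⟨z, -, hz⟩ := exists_lt_card_fiber_of_mul_lt_card_of_maps_to (s := A) (t := univ)
    (f := f) (fun a _ => mem_univ _) (by rw [card_univ]; exact h)
  exact absurd (hy z (mem_univ _)) (not_le.2 hz)

theorem exists_fiber' {Γ : Type} [Fintype Γ] [DecidableEq Γ] [Nonempty Γ] (f : ℤ → Γ) :
    ∃ K : ℕ, 0 < K ∧ ∀ A : Finset ℤ, ∃ y : Γ, A.card ≤ K * (A.filter fun x => f x = y).card :=
  ⟨Fintype.card Γ, Fintype.card_pos, exists_fiber f⟩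

/-- the colours -/
abbrev Col : Type := (ZMod 4 × ZMod 16) × (ZMod 4 × ZMod 81) × (ZMod 4 × ZMod 625) ×
  (ZMod 4 × ZMod 2401)

/-- one component of the colour -/
def cq (q m : ℕ) (a : ℤ) : ZMod 4 × ZMod m :=
  ((padicValInt q a : ZMod 4), ((a / (q : ℤ) ^ padicValInt q a : ℤ) : ZMod m))

theorem cq_eq {q m : ℕ} {a b : ℤ} (hm : (q : ℤ) ^ 4 = (m : ℤ)) (h : cq q m a = cq q m b) :
    padicValInt q a ≡ padicValInt q b [MOD 4] ∧
    a / (q : ℤ) ^ padicValInt q a ≡ b / (q : ℤ) ^ padicValInt q b [ZMOD (q : ℤ) ^ 4] := by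
  have h1 := congrArg Prod.fst h
  have h2 := congrArg Prod.snd h
  refine ⟨(ZMod.natCast_eq_natCast_iff _ _ _).1 h1, ?_⟩
  rw [hm]
  exact (ZMod.intCast_eq_intCast_iff _ _ _).1 h2

/-- the colour -/
def colr (a : ℤ) : Col := (cq 2 16 a, cq 3 81 a, cq 5 625 a, cq 7 2401 a)

theorem exists_mono : ∃ K : ℕ, 0 < K ∧ ∀ A : Finset ℤ, A.Nonempty → (∀ a ∈ A, 0 < a) →
    ∃ A' ⊆ A, A'.Nonempty ∧ Mono A' ∧ A.card ≤ K * A'.card := by
  classical
  obtain ⟨K, hK, hf⟩ := exists_fiber' colr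
  refine ⟨K, hK, fun A hA _ => ?_⟩
  obtain ⟨y, hy⟩ := hf A
  refine ⟨A.filter fun x => colr x = y, filter_subset _ _, ?_, ?_, hy⟩
  · rw [← card_pos]
    have h1 : 0 < A.card := card_pos.2 hA
    rcases Nat.eq_zero_or_pos (A.filter fun x => colr x = y).card with h | h
    · rw [h, mul_zero] at hy; omega
    · exact h
  · intro q hq hq11 a ha b hb
    have hab : colr a = colr b := by
      rw [(mem_filter.1 ha).2, (mem_filter.1 hb).2]
    simp only [colr, Prod.mk.injEq] at hab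
    obtain ⟨h2, h3, h5, h7⟩ := hab
    interval_cases q
    · exact absurd hq (by norm_num)
    · exact absurd hq (by norm_num)
    · exact cq_eq (by norm_num) h2
    · exact cq_eq (by norm_num) h3
    · exact absurd hq (by norm_num)
    · exact cq_eq (by norm_num) h5
    · exact absurd hq (by norm_num)
    · exact cq_eq (by norm_num) h7
    · exact absurd hq (by norm_num)
    · exact absurd hq (by norm_num)
    · exact absurd hq (by norm_num)

end Pool.Agent.N608.LS
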